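import Pool.Agent.Helper37.LPP.MgfLower
import Pool.Agent.Helper36.LPP.Real4

open MeasureTheory ProbabilityTheory Filter Topology
open scoped ENNReal

set_option linter.unusedSectionVars false

namespace Helper97.LPP

variable {Ω : Type*} [MeasurableSpace Ω] {P : Measure Ω} [IsProbabilityMeasure P]
  {X : ℕ × ℕ → Ω → ℝ}

theorem h44_zero_le (q : ℕ × ℕ) : ((0, 0) : ℕ × ℕ) ≤ q := ⟨Nat.zero_le _, Nat.zero_le _⟩

theorem h44_local_lpm (q : ℕ × ℕ) :
    Local (Finset.Icc (0, 0) q \ {q}) (fun x => lpm x q) := by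
  intro x y h
  have h1 := lp_update_last x (p := (0, 0)) (q := q) (h44_zero_le q) 0
  have h2 := lp_update_last y (p := (0, 0)) (q := q) (h44_zero_le q) 0
  have h3 : lp (Function.update x q 0) (0, 0) q = lp (Function.update y q 0) (0, 0) q := by
    apply lp_congr
    intro w h4 h5
    by_cases hw : w = q
    · subst hw; simp
    · simp only [Function.update_apply, hw, if_false]
      apply h
      simp only [Finset.mem_sdiff, Finset.mem_Icc, Finset.mem_singleton]
      exact ⟨⟨h4, h5⟩, hw⟩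
  show lpm x q = lpm y q
  unfold lpm
  linarith

theorem h44_measurable_lpm (q : ℕ × ℕ) : Measurable (fun x : ℕ × ℕ → ℝ => lpm x q) := by
  unfold lpm
  exact (lp_measurable _ _).sub (measurable_pi_apply q)

theorem h44_emom_eq (h : IsExpField P X) {θ : ℝ} (hθ : θ < 1) (q : ℕ × ℕ) :
    emom P X θ (0, 0) q =
      (∫⁻ ω, ENNReal.ofReal (Real.exp (θ * lpm (fun w => X w ω) q)) ∂P) *
        ENNReal.ofReal (1 / (1 - θ)) := by
  have hind : IndepFun (fun ω => lpm (fun w => X w ω) q) (fun ω => X q ω) P := by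
    have := indep_local h.meas h.indep (S := Finset.Icc (0, 0) q \ {q}) (T := {q})
      (f := fun x => lpm x q) (g := fun x => x q) Finset.sdiff_disjoint
      (h44_measurable_lpm q) (measurable_pi_apply q) (h44_local_lpm q)
      (fun x y hxy => hxy q (Finset.mem_singleton_self q))
    exact this
  have e1 : ∀ ω, ENNReal.ofReal (Real.exp (θ * lp (fun w => X w ω) (0, 0) q)) =
      ENNReal.ofReal (Real.exp (θ * lpm (fun w => X w ω) q)) *
        ENNReal.ofReal (Real.exp (θ * X q ω)) := by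
    intro ω
    rw [← ENNReal.ofReal_mul (Real.exp_pos _).le, ← Real.exp_add]
    congr 2
    unfold lpm
    ring
  unfold emom
  simp_rw [e1]
  have hm1 : Measurable (fun x : ℝ => ENNReal.ofReal (Real.exp (θ * x))) := by fun_prop
  have hlm : Measurable (fun ω => lpm (fun w => X w ω) q) :=
    (h44_measurable_lpm q).comp (measurable_pi_iff.2 h.meas)
  have h3 := lintegral_mul_eq_lintegral_mul_lintegral_of_indepFun (hm1.comp hlm)
    (hm1.comp (h.meas q)) (hind.comp hm1 hm1)
  have h4 : ∫⁻ ω, ENNReal.ofReal (Real.exp (θ * X q ω)) ∂P = ENNReal.ofReal (1 / (1 - θ)) := by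
    rw [← lintegral_exp_exp one_pos hθ, ← h.law q, lintegral_map hm1 (h.meas q)]
  rw [← h4]
  exact h3

theorem h44_lpm_le (h : IsExpField P X) (q : ℕ × ℕ) :
    ∀ᵐ ω ∂P, lpm (fun w => X w ω) q ≤ lp (fun w => X w ω) (0, 0) q := by
  filter_upwards [h.ae_pos] with ω hω
  unfold lpm
  linarith [hω q]

theorem h44_upper (h : IsExpField P X) {θ η : ℝ} (hη : 0 ≤ η) (hθ : 0 ≤ θ + η) (q : ℕ × ℕ)
    (c : ℝ) :
    ∫⁻ ω in {ω | c ≤ lpm (fun w => X w ω) q},
        ENNReal.ofReal (Real.exp (θ * lpm (fun w => X w ω) q)) ∂P ≤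
      ENNReal.ofReal (Real.exp (-(η * c))) * emom P X (θ + η) (0, 0) q := by
  have hlm : Measurable (fun ω => lpm (fun w => X w ω) q) :=
    (h44_measurable_lpm q).comp (measurable_pi_iff.2 h.meas)
  have hms : MeasurableSet {ω | c ≤ lpm (fun w => X w ω) q} := measurableSet_le measurable_const hlm
  unfold emom
  rw [← lintegral_const_mul' _ _ ENNReal.ofReal_ne_top]
  refine le_trans ?_ (lintegral_mono_ae (f := fun ω => ENNReal.ofReal (Real.exp (-(η * c))) *
    ENNReal.ofReal (Real.exp ((θ + η) * lpm (fun w => X w ω) q))) ?_)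
  · refine le_trans (setLIntegral_mono' hms ?_) (setLIntegral_le_lintegral _ _)
    intro ω hω
    rw [← ENNReal.ofReal_mul (Real.exp_pos _).le, ← Real.exp_add]
    apply ENNReal.ofReal_le_ofReal
    apply Real.exp_le_exp.2
    have : η * c ≤ η * lpm (fun w => X w ω) q := mul_le_mul_of_nonneg_left hω hη
    nlinarith
  · filter_upwards [h44_lpm_le h q] with ω hω
    gcongr

theorem h44_lower (h : IsExpField P X) {θ η : ℝ} (hη : 0 ≤ η) (hθ : 0 ≤ θ - η) (q : ℕ × ℕ)
    (c : ℝ) :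
    ∫⁻ ω in {ω | lpm (fun w => X w ω) q ≤ c},
        ENNReal.ofReal (Real.exp (θ * lpm (fun w => X w ω) q)) ∂P ≤
      ENNReal.ofReal (Real.exp (η * c)) * emom P X (θ - η) (0, 0) q := by
  have hlm : Measurable (fun ω => lpm (fun w => X w ω) q) :=
    (h44_measurable_lpm q).comp (measurable_pi_iff.2 h.meas)
  have hms : MeasurableSet {ω | lpm (fun w => X w ω) q ≤ c} := measurableSet_le hlm measurable_const
  unfold emom
  rw [← lintegral_const_mul' _ _ ENNReal.ofReal_ne_top]
  refine le_trans ?_ (lintegral_mono_ae (f := fun ω => ENNReal.ofReal (Real.exp (η * c)) *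
    ENNReal.ofReal (Real.exp ((θ - η) * lpm (fun w => X w ω) q))) ?_)
  · refine le_trans (setLIntegral_mono' hms ?_) (setLIntegral_le_lintegral _ _)
    intro ω hω
    rw [← ENNReal.ofReal_mul (Real.exp_pos _).le, ← Real.exp_add]
    apply ENNReal.ofReal_le_ofReal
    apply Real.exp_le_exp.2
    have : η * lpm (fun w => X w ω) q ≤ η * c := mul_le_mul_of_nonneg_left hω hη
    nlinarith
  · filter_upwards [h44_lpm_le h q] with ω hω
    gcongr

theorem h44_pt_fst {a b : ℝ} (ha : 0 < a) {N : ℕ} (hN : 0 < N) :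
    a * N ≤ ((pt a b N).1 : ℝ) + 1 ∧ ((pt a b N).1 : ℝ) + 1 ≤ a * N + 1 := by
  have h1 : 0 < ⌈a * N⌉₊ := Nat.ceil_pos.2 (by positivity)
  have h2 : ((pt a b N).1 : ℝ) + 1 = (⌈a * N⌉₊ : ℝ) := by
    unfold pt
    simp only
    rw [Nat.cast_sub (by omega)]
    simp
  rw [h2]
  exact ⟨Nat.le_ceil _, (Nat.ceil_lt_add_one (by positivity)).le⟩

theorem h44_pt_snd {a b : ℝ} (hb : 0 < b) {N : ℕ} (hN : 0 < N) :
    b * N ≤ ((pt a b N).2 : ℝ) + 1 ∧ ((pt a b N).2 : ℝ) + 1 ≤ b * N + 1 := by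
  have h1 : 0 < ⌈b * N⌉₊ := Nat.ceil_pos.2 (by positivity)
  have h2 : ((pt a b N).2 : ℝ) + 1 = (⌈b * N⌉₊ : ℝ) := by
    unfold pt
    simp only
    rw [Nat.cast_sub (by omega)]
    simp
  rw [h2]
  exact ⟨Nat.le_ceil _, (Nat.ceil_lt_add_one (by positivity)).le⟩

theorem h44_hC_nonneg {z w : ℝ} (hz : 0 < z) (hzw : z ≤ w) : 0 ≤ hC z w := by
  unfold hC
  apply Real.log_nonneg
  rw [le_div_iff₀ hz]; linarith

theorem h44_hR_nonneg {z w : ℝ} (hzw : z ≤ w) (hw : w < 1) : 0 ≤ hR z w := by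
  unfold hR
  apply Real.log_nonneg
  rw [le_div_iff₀ (by linarith)]; linarith

theorem h44_mgf_pt (h : IsExpField P X) {a b z w : ℝ} (ha : 0 < a) (hb : 0 < b) (hz : 0 < z)
    (hzw : z ≤ w) (hw : w < 1) {N : ℕ} (hN : 0 < N) :
    emom P X (w - z) (0, 0) (pt a b N) ≤
      ENNReal.ofReal (Real.exp (N * (a * hC z w + b * hR z w) + (hC z w + hR z w))) := by
  have h1 := mgf_upper h hz hzw hw (0, 0) (pt a b N).1 (pt a b N).2
  simp only [zero_add] at h1
  refine h1.trans ?_
  apply ENNReal.ofReal_le_ofReal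
  apply Real.exp_le_exp.2
  have h2 := (h44_pt_fst (b := b) ha hN).2
  have h3 := (h44_pt_snd (a := a) hb hN).2
  have h4 := h44_hC_nonneg hz hzw
  have h5 := h44_hR_nonneg hzw hw
  nlinarith [mul_le_mul_of_nonneg_right h2 h4, mul_le_mul_of_nonneg_right h3 h5]

/-- small Chernoff shift -/
theorem h44_shift {a b l z w s : ℝ} (ha : 0 < a) (hb : 0 < b) (hz : 0 < z) (hzw : z < w)
    (hw : w < 1) (hl : a / w + b / (1 - w) = l) (hs : 0 < s) :
    ∃ η > 0, w + η < 1 ∧ z ≤ w - η ∧
      a * hC z (w + η) + b * hR z (w + η) - η * (l + s) ≤ a * hC z w + b * hR z w - η * s / 2 ∧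
      a * hC z (w - η) + b * hR z (w - η) + η * (l - s) ≤ a * hC z w + b * hR z w - η * s / 2 := by
  obtain ⟨C₁, hC₁, t₁, ht₁, H1⟩ := hC_taylor hz (hz.trans hzw) 0 1
  obtain ⟨C₂, hC₂, t₂, ht₂, H2⟩ := hR_taylor (hzw.trans hw) hw 0 1
  set η := min (min t₁ t₂) (min (min ((1 - w) / 2) (w - z)) (s / (2 * (a * C₁ + b * C₂)))) with hη
  have hK : 0 < a * C₁ + b * C₂ := by positivity
  have h0 : 0 < η := by
    rw [hη]
    refine lt_min (lt_min ht₁ ht₂) (lt_min (lt_min (by linarith) (by linarith)) (by positivity))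
  have h1 : η ≤ t₁ := (min_le_left _ _).trans (min_le_left _ _)
  have h2 : η ≤ t₂ := (min_le_left _ _).trans (min_le_right _ _)
  have h3 : η ≤ (1 - w) / 2 := (min_le_right _ _).trans ((min_le_left _ _).trans (min_le_left _ _))
  have h4 : η ≤ w - z := (min_le_right _ _).trans ((min_le_left _ _).trans (min_le_right _ _))
  have h5 : η ≤ s / (2 * (a * C₁ + b * C₂)) := (min_le_right _ _).trans (min_le_right _ _)
  have h6 : (a * C₁ + b * C₂) * η ^ 2 ≤ η * s / 2 := by
    rw [le_div_iff₀ (by positivity)] at h5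
    nlinarith
  obtain ⟨-, -, A1⟩ := H1 η (by rw [abs_of_pos h0]; exact h1)
  obtain ⟨-, -, A2⟩ := H2 η (by rw [abs_of_pos h0]; exact h2)
  obtain ⟨-, -, A3⟩ := H1 (-η) (by rw [abs_neg, abs_of_pos h0]; exact h1)
  obtain ⟨-, -, A4⟩ := H2 (-η) (by rw [abs_neg, abs_of_pos h0]; exact h2)
  simp only [zero_mul, add_zero, one_mul, zero_div, sub_zero, neg_sq] at A1 A2 A3 A4
  refine ⟨η, h0, by linarith, by linarith, ?_, ?_⟩
  · have e : a * (η * (1 / w)) + b * (η * (1 / (1 - w))) = η * l := by rw [← hl]; ring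
    nlinarith [mul_le_mul_of_nonneg_left A1 ha.le, mul_le_mul_of_nonneg_left A2 hb.le]
  · have e : a * (-η * (1 / w)) + b * (-η * (1 / (1 - w))) = -(η * l) := by rw [← hl]; ring
    have e2 : w + -η = w - η := by ring
    rw [e2] at A3 A4
    nlinarith [mul_le_mul_of_nonneg_left A3 ha.le, mul_le_mul_of_nonneg_left A4 hb.le]

theorem h44_ennreal {x y z : ℝ} {I A B J : ℝ≥0∞} (hy : 0 ≤ y) (hz : 0 ≤ z)
    (h1 : ENNReal.ofReal x ≤ I) (h2 : A ≤ ENNReal.ofReal y) (h3 : B ≤ ENNReal.ofReal y)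
    (h4 : I ≤ A + B + J) (h5 : z + 2 * y ≤ x) : ENNReal.ofReal z ≤ J := by
  have h6 : ENNReal.ofReal z + ENNReal.ofReal (2 * y) ≤ J + ENNReal.ofReal (2 * y) := by
    rw [← ENNReal.ofReal_add hz (by linarith)]
    calc ENNReal.ofReal (z + 2 * y) ≤ ENNReal.ofReal x := ENNReal.ofReal_le_ofReal h5
      _ ≤ I := h1
      _ ≤ A + B + J := h4
      _ ≤ ENNReal.ofReal y + ENNReal.ofReal y + J := by gcongr
      _ = J + ENNReal.ofReal (2 * y) := by
          rw [← ENNReal.ofReal_add hy hy, add_comm]; congr 2; ring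
  exact (ENNReal.add_le_add_iff_right ENNReal.ofReal_ne_top).1 h6

theorem h44_eventually_lin {c : ℝ} (hc : 0 < c) (K : ℝ) : ∀ᶠ N : ℕ in atTop, K ≤ c * N := by
  have : Tendsto (fun N : ℕ => c * (N : ℝ)) atTop atTop :=
    tendsto_natCast_atTop_atTop.const_mul_atTop hc
  exact this.eventually_ge_atTop K

theorem density_lower (h : IsExpField P X) {a b l : ℝ} (ha : 0 < a) (hb : 0 < b)
    (hl : shp a b < l) {δ : ℝ} (hδ : 0 < δ) :
    ∀ᶠ N : ℕ in atTop, ENNReal.ofReal (Real.exp (-(N * (rate a b l + δ)))) ≤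
      ∫⁻ ω in {ω | lpm (fun w => X w ω) (pt a b N) < l * N},
        ENNReal.ofReal (Real.exp (lpm (fun w => X w ω) (pt a b N) - l * N)) ∂P := by
  -- choose `l'`
  have hcont := (params_cont ha hb hl).2.2
  have hev : ∀ᶠ l' in 𝓝 l, rate a b l' < rate a b l + δ / 4 :=
    hcont.eventually (gt_mem_nhds (by linarith))
  obtain ⟨l', hl'1, hl'2, hl'3, hl'4⟩ : ∃ l', shp a b < l' ∧ l' < l ∧ l - δ / 4 < l' ∧
      rate a b l' < rate a b l + δ / 4 := by
    have h1 : ∀ᶠ l' in 𝓝[<] l, rate a b l' < rate a b l + δ / 4 := hev.filter_mono nhdsWithin_le_nhds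
    have h2 : ∀ᶠ l' in 𝓝[<] l, shp a b < l' :=
      (lt_mem_nhds hl).filter_mono nhdsWithin_le_nhds
    have h3 : ∀ᶠ l' in 𝓝[<] l, l - δ / 4 < l' :=
      (lt_mem_nhds (by linarith)).filter_mono nhdsWithin_le_nhds
    have h4 : ∀ᶠ l' in 𝓝[<] l, l' < l := eventually_mem_nhdsWithin
    obtain ⟨l', hh⟩ := (h1.and (h2.and (h3.and h4))).exists
    exact ⟨l', hh.2.1, hh.2.2.2, hh.2.2.1, hh.1⟩
  obtain ⟨hz, hzw, hw, hcz, hcw⟩ := params ha hb hl'1
  set z := zl a b l' with hzdef
  set w := wl a b l' with hwdef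
  set s := min (l - l') (δ / 4) with hs
  have hs0 : 0 < s := lt_min (by linarith) (by linarith)
  have hs1 : s ≤ l - l' := min_le_left _ _
  have hs2 : s ≤ δ / 4 := min_le_right _ _
  obtain ⟨η, hη, hη1, hη2, hη3, hη4⟩ := h44_shift ha hb hz hzw hw hcw hs0
  set G := a * hC z w + b * hR z w with hG
  have hrate : rate a b l' = (w - z) * l' - G := by rw [hG]; unfold rate; ring
  set δ' := min (η * s / 4) (δ / 8) with hδ'
  have hδ'0 : 0 < δ' := lt_min (by positivity) (by linarith)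
  have hδ'1 : δ' ≤ η * s / 4 := min_le_left _ _
  have hδ'2 : δ' ≤ δ / 8 := min_le_right _ _
  have hθ0 : 0 < w - z := by linarith
  have hθ1 : w - z < 1 := by linarith
  set K := max (hC z (w + η) + hR z (w + η)) (hC z (w - η) + hR z (w - η)) with hK
  have E1 := mgf_lower h ha hb hz hzw hw (hcw.trans hcz.symm) hδ'0
  have E2 := h44_eventually_lin (c := η * s / 4) (by positivity) (K - Real.log ((1 - (w - z)) / 4))
  have E3 := h44_eventually_lin (c := δ / 8) (by positivity) (-Real.log ((1 - (w - z)) / 2))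
  filter_upwards [E1, E2, E3, eventually_gt_atTop 0] with N F1 F2 F3 hN
  have hNr : (0 : ℝ) < N := by exact_mod_cast hN
  set q := pt a b N with hq
  have hlm : Measurable (fun ω => lpm (fun w => X w ω) q) :=
    (h44_measurable_lpm q).comp (measurable_pi_iff.2 h.meas)
  have hA := h44_upper h (θ := w - z) (η := η) hη.le (by linarith) q ((l' + s) * N)
  have hB := h44_lower h (θ := w - z) (η := η) hη.le (by linarith) q ((l' - s) * N)
  have hA2 : ENNReal.ofReal (Real.exp (-(η * ((l' + s) * N)))) * emom P X (w - z + η) (0, 0) q ≤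
      ENNReal.ofReal (Real.exp (N * (G - η * s / 2) + K)) := by
    have e1 : w - z + η = (w + η) - z := by ring
    rw [e1]
    refine (mul_le_mul_right (h44_mgf_pt h ha hb hz (by linarith : z ≤ w + η) hη1 hN) _).trans ?_
    rw [← ENNReal.ofReal_mul (Real.exp_pos _).le, ← Real.exp_add]
    apply ENNReal.ofReal_le_ofReal
    apply Real.exp_le_exp.2
    have hK1 : hC z (w + η) + hR z (w + η) ≤ K := le_max_left _ _
    nlinarith [mul_le_mul_of_nonneg_left hη3 hNr.le]
  have hB2 : ENNReal.ofReal (Real.exp (η * ((l' - s) * N))) * emom P X (w - z - η) (0, 0) q ≤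
      ENNReal.ofReal (Real.exp (N * (G - η * s / 2) + K)) := by
    have e1 : w - z - η = (w - η) - z := by ring
    rw [e1]
    refine (mul_le_mul_right (h44_mgf_pt h ha hb hz hη2 (by linarith : w - η < 1) hN) _).trans ?_
    rw [← ENNReal.ofReal_mul (Real.exp_pos _).le, ← Real.exp_add]
    apply ENNReal.ofReal_le_ofReal
    apply Real.exp_le_exp.2
    have hK1 : hC z (w - η) + hR z (w - η) ≤ K := le_max_right _ _
    nlinarith [mul_le_mul_of_nonneg_left hη4 hNr.le]
  set I := ∫⁻ ω, ENNReal.ofReal (Real.exp ((w - z) * lpm (fun w => X w ω) q)) ∂P with hI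
  have hI1 : ENNReal.ofReal ((1 - (w - z)) * Real.exp (N * (G - δ'))) ≤ I := by
    have h1 := F1
    rw [h44_emom_eq h hθ1] at h1
    have h2 : ENNReal.ofReal (1 - (w - z)) * ENNReal.ofReal (Real.exp (N * (G - δ'))) ≤
        ENNReal.ofReal (1 - (w - z)) * (I * ENNReal.ofReal (1 / (1 - (w - z)))) :=
      mul_le_mul_right h1 _
    rw [← ENNReal.ofReal_mul (by linarith), mul_comm I, ← mul_assoc,
      ← ENNReal.ofReal_mul (by linarith)] at h2
    have h3 : (1 - (w - z)) * (1 / (1 - (w - z))) = 1 := by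
      have : 1 - (w - z) ≠ 0 := by linarith
      field_simp
    rw [h3, ENNReal.ofReal_one, one_mul] at h2
    exact h2
  set E := {ω | (l' - s) * N < lpm (fun w => X w ω) q ∧ lpm (fun w => X w ω) q < (l' + s) * N}
    with hE
  have hEm : MeasurableSet E :=
    (measurableSet_lt measurable_const hlm).inter (measurableSet_lt hlm measurable_const)
  set J := ∫⁻ ω in E, ENNReal.ofReal (Real.exp ((w - z) * lpm (fun w => X w ω) q)) ∂P with hJ
  have hsplit : I ≤ (∫⁻ ω in {ω | (l' + s) * N ≤ lpm (fun w => X w ω) q},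
        ENNReal.ofReal (Real.exp ((w - z) * lpm (fun w => X w ω) q)) ∂P) +
      (∫⁻ ω in {ω | lpm (fun w => X w ω) q ≤ (l' - s) * N},
        ENNReal.ofReal (Real.exp ((w - z) * lpm (fun w => X w ω) q)) ∂P) + J := by
    have hu : (Set.univ : Set Ω) ⊆ ({ω | (l' + s) * N ≤ lpm (fun w => X w ω) q} ∪
        {ω | lpm (fun w => X w ω) q ≤ (l' - s) * N}) ∪ E := by
      intro ω _
      by_cases h1 : (l' + s) * N ≤ lpm (fun w => X w ω) q
      · exact Or.inl (Or.inl h1)
      · by_cases h2 : lpm (fun w => X w ω) q ≤ (l' - s) * N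
        · exact Or.inl (Or.inr h2)
        · exact Or.inr ⟨not_le.1 h2, not_le.1 h1⟩
    calc I = ∫⁻ ω in Set.univ, ENNReal.ofReal (Real.exp ((w - z) * lpm (fun w => X w ω) q)) ∂P := by
          rw [setLIntegral_univ]
      _ ≤ ∫⁻ ω in ({ω | (l' + s) * N ≤ lpm (fun w => X w ω) q} ∪
        {ω | lpm (fun w => X w ω) q ≤ (l' - s) * N}) ∪ E,
          ENNReal.ofReal (Real.exp ((w - z) * lpm (fun w => X w ω) q)) ∂P :=
          lintegral_mono_set hu
      _ ≤ _ := (lintegral_union_le _ _ _).trans (by gcongr; exact lintegral_union_le _ _ _)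
  have hJ1 : ENNReal.ofReal ((1 - (w - z)) / 2 * Real.exp (N * (G - δ'))) ≤ J := by
    refine h44_ennreal (y := Real.exp (N * (G - η * s / 2) + K)) (Real.exp_pos _).le
      (by have := Real.exp_pos (N * (G - δ')); have : 0 < 1 - (w - z) := by linarith
          positivity) hI1 (hA.trans hA2) (hB.trans hB2) hsplit ?_
    have h1 : Real.exp (N * (G - η * s / 2) + K) ≤
        (1 - (w - z)) / 4 * Real.exp (N * (G - δ')) := by
      have h2 : (0 : ℝ) < (1 - (w - z)) / 4 := by linarith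
      rw [← Real.exp_log h2, ← Real.exp_add]
      apply Real.exp_le_exp.2
      nlinarith [mul_le_mul_of_nonneg_left hδ'1 hNr.le]
    linarith
  have hsub : E ⊆ {ω | lpm (fun w => X w ω) q < l * N} := by
    intro ω hω
    have h1 : (l' + s) * N ≤ l * N := by
      apply mul_le_mul_of_nonneg_right _ hNr.le
      linarith
    exact hω.2.trans_le h1
  calc ENNReal.ofReal (Real.exp (-(N * (rate a b l + δ))))
      ≤ ENNReal.ofReal (Real.exp (((1 - (w - z)) * (l' - s) - l) * N)) *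
          ENNReal.ofReal ((1 - (w - z)) / 2 * Real.exp (N * (G - δ'))) := by
        rw [← ENNReal.ofReal_mul (Real.exp_pos _).le]
        apply ENNReal.ofReal_le_ofReal
        have h2 : (0 : ℝ) < (1 - (w - z)) / 2 := by linarith
        rw [← Real.exp_log h2, ← Real.exp_add, ← Real.exp_add]
        apply Real.exp_le_exp.2
        have h3 : (w - z) * l' - G < rate a b l + δ / 4 := by rw [← hrate]; exact hl'4
        have h4 : 0 ≤ (w - z) * s := by positivity
        have h6 : (l - l') + (1 - (w - z)) * s + δ' + ((w - z) * l' - G) + δ / 8 ≤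
            rate a b l + δ := by nlinarith
        have h7 := mul_le_mul_of_nonneg_left h6 hNr.le
        nlinarith
    _ ≤ ENNReal.ofReal (Real.exp (((1 - (w - z)) * (l' - s) - l) * N)) * J :=
        mul_le_mul_right hJ1 _
    _ ≤ ∫⁻ ω in E, ENNReal.ofReal (Real.exp (lpm (fun w => X w ω) q - l * N)) ∂P := by
        rw [hJ, ← lintegral_const_mul' _ _ ENNReal.ofReal_ne_top]
        refine setLIntegral_mono' hEm ?_
        intro ω hω
        rw [← ENNReal.ofReal_mul (Real.exp_pos _).le, ← Real.exp_add]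
        apply ENNReal.ofReal_le_ofReal
        apply Real.exp_le_exp.2
        have h1 : (1 - (w - z)) * ((l' - s) * N) ≤ (1 - (w - z)) * lpm (fun w => X w ω) q :=
          mul_le_mul_of_nonneg_left hω.1.le (by linarith)
        nlinarith
    _ ≤ _ := lintegral_mono_set hsub

end Helper97.LPP
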