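import Pool.Agent.Helper44.LPP.Density
import Pool.Agent.Helper41.LPP.TwoPath

open MeasureTheory ProbabilityTheory Filter Topology
open scoped ENNReal

namespace Helper97.LPP

variable {Ω : Type*} [MeasurableSpace Ω] {P : Measure Ω} [IsProbabilityMeasure P]
  {X : ℕ × ℕ → Ω → ℝ}

/-- the exponent of one term of the joint bound -/
theorem h44_expo {a b l u v z w y h0 ε : ℝ} (ha : 0 < a) (hb : 0 < b) (hu : 0 < u) (hv : 0 < v)
    (hz : 0 < z) (hzw : z < w) (hw : w < 1) (hy : 0 < y) (hy1 : y < 1)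
    (hcz : a / z + b / (1 - z) = l) (hcw : a / w + b / (1 - w) = l)
    (hyb : ∀ r ∈ Set.Icc (0 : ℝ) 1,
      r * l + (u - r) * (a / y) + (v - r) * (b / (1 - y)) ≤ h0 + ε / 2) (hε : 0 < ε) :
    ∃ t κ K : ℝ, 0 < t ∧ t < w - z ∧ 0 < z + κ * t ∧ w + κ * t < 1 ∧ y + t < 1 ∧
      ∀ N M₁ M₂ U₁ U₂ Q₁ Q₂ : ℝ, 1 ≤ N → a * N ≤ M₁ → M₁ ≤ a * N + 1 → b * N ≤ M₂ →
        M₂ ≤ b * N + 1 → U₁ ≤ a * u * N + 1 → U₂ ≤ b * v * N + 1 → 1 ≤ Q₁ → 1 ≤ Q₂ →
        Q₁ ≤ M₁ → Q₂ ≤ M₂ → Q₁ ≤ U₁ → Q₂ ≤ U₂ →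
        -(((w - z) - t) * (l * N)) - t * ((h0 + ε) * N) +
          (Q₁ * hC (z + κ * t) (w + κ * t) + Q₂ * hR (z + κ * t) (w + κ * t) +
          ((M₁ - Q₁ + 1) * hC z (w - t) + (M₂ - Q₂ + 1) * hR z (w - t)) +
          ((U₁ - Q₁ + 1) * hC y (y + t) + (U₂ - Q₂ + 1) * hR y (y + t))) ≤
        -(N * ((w - z) * l - a * hC z w - b * hR z w + t * ε / 4)) + K := by
  have hw0 : 0 < w := hz.trans hzw
  have hz1 : z < 1 := hzw.trans hw
  set κ := (1 / w - 1 / y) / (1 / z - 1 / w) with hκ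
  have hden : 0 < 1 / z - 1 / w := by
    have : 1 / w < 1 / z := one_div_lt_one_div_of_lt hz hzw
    linarith
  have hκ1 : κ * (1 / z - 1 / w) = 1 / w - 1 / y := by
    rw [hκ, div_mul_cancel₀ _ hden.ne']
  have hcrit : a * (1 / z - 1 / w) = b * (1 / (1 - w) - 1 / (1 - z)) := by
    have e1 : a / z = a * (1 / z) := by ring
    have e2 : b / (1 - z) = b * (1 / (1 - z)) := by ring
    have e3 : a / w = a * (1 / w) := by ring
    have e4 : b / (1 - w) = b * (1 / (1 - w)) := by ring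
    rw [e1, e2] at hcz
    rw [e3, e4] at hcw
    linarith
  have hκ2 : κ * (1 / (1 - w) - 1 / (1 - z)) = (a / b) * (1 / w - 1 / y) := by
    have : 1 / (1 - w) - 1 / (1 - z) = (a / b) * (1 / z - 1 / w) := by
      field_simp at hcrit ⊢
      linarith
    rw [this, ← hκ1]; ring
  obtain ⟨C₁, hC₁, t₁, ht₁, H1⟩ := hC_taylor hz hw0 κ κ
  obtain ⟨C₂, hC₂, t₂, ht₂, H2⟩ := hR_taylor hz1 hw κ κ
  obtain ⟨C₃, hC₃, t₃, ht₃, H3⟩ := hC_taylor hz hw0 0 (-1)
  obtain ⟨C₄, hC₄, t₄, ht₄, H4⟩ := hR_taylor hz1 hw 0 (-1)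
  obtain ⟨C₅, hC₅, t₅, ht₅, H5⟩ := hC_taylor hy hy 0 1
  obtain ⟨C₆, hC₆, t₆, ht₆, H6⟩ := hR_taylor hy1 hy1 0 1
  set C := C₁ + C₂ + C₃ + C₄ + C₅ + C₆ with hC'
  have hC0 : 0 < C := by positivity
  set A0 := a + b + a * u + b * v with hA0
  have hA00 : 0 < A0 := by positivity
  set t := min (min (min t₁ t₂) (min t₃ t₄)) (min (min t₅ t₆)
    (min ((w - z) / 2) (ε / (4 * (C * A0))))) with ht
  have ht0 : 0 < t := by
    rw [ht]
    refine lt_min (lt_min (lt_min ht₁ ht₂) (lt_min ht₃ ht₄)) (lt_min (lt_min ht₅ ht₆)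
      (lt_min (by linarith) (by positivity)))
  have b1 : t ≤ t₁ := (min_le_left _ _).trans ((min_le_left _ _).trans (min_le_left _ _))
  have b2 : t ≤ t₂ := (min_le_left _ _).trans ((min_le_left _ _).trans (min_le_right _ _))
  have b3 : t ≤ t₃ := (min_le_left _ _).trans ((min_le_right _ _).trans (min_le_left _ _))
  have b4 : t ≤ t₄ := (min_le_left _ _).trans ((min_le_right _ _).trans (min_le_right _ _))
  have b5 : t ≤ t₅ := (min_le_right _ _).trans ((min_le_left _ _).trans (min_le_left _ _))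
  have b6 : t ≤ t₆ := (min_le_right _ _).trans ((min_le_left _ _).trans (min_le_right _ _))
  have b7 : t ≤ (w - z) / 2 := (min_le_right _ _).trans ((min_le_right _ _).trans (min_le_left _ _))
  have b8 : t ≤ ε / (4 * (C * A0)) :=
    (min_le_right _ _).trans ((min_le_right _ _).trans (min_le_right _ _))
  have b9 : C * A0 * t ≤ ε / 4 := by
    rw [le_div_iff₀ (by positivity)] at b8
    linarith
  have habs : |t| = t := abs_of_pos ht0
  obtain ⟨g1, g1', G1⟩ := H1 t (by rw [habs]; exact b1)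
  obtain ⟨g2, g2', G2⟩ := H2 t (by rw [habs]; exact b2)
  obtain ⟨-, -, G3⟩ := H3 t (by rw [habs]; exact b3)
  obtain ⟨-, -, G4⟩ := H4 t (by rw [habs]; exact b4)
  obtain ⟨-, -, G5⟩ := H5 t (by rw [habs]; exact b5)
  obtain ⟨-, g6, G6⟩ := H6 t (by rw [habs]; exact b6)
  have e0 : w + -1 * t = w - t := by ring
  have e0' : z + 0 * t = z := by ring
  have e0'' : y + 0 * t = y := by ring
  have e0''' : y + 1 * t = y + t := by ring
  rw [e0, e0'] at G3 G4
  rw [e0'', e0'''] at G5 G6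
  have hcy : hC y y = 0 := by unfold hC; rw [div_self hy.ne', Real.log_one]
  have hry : hR y y = 0 := by
    unfold hR; rw [div_self (by linarith : (1 : ℝ) - y ≠ 0), Real.log_one]
  rw [hcy] at G5
  rw [hry] at G6
  have hCn := h44_hC_nonneg hz hzw.le
  have hRn := h44_hR_nonneg hzw.le hw
  set D := l - a / y - b / (1 - y) with hD
  set K := 2 * hC z w + 2 * hR z w + t * (|D| / b + 2 / y + 2 / (1 - y)) + C * t ^ 2 * 8 with hK
  have hy1' : 0 < 1 - y := by linarith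
  refine ⟨t, κ, K, ht0, by linarith, g1, g2', by linarith, ?_⟩
  intro N M₁ M₂ U₁ U₂ Q₁ Q₂ hN m1 m2 m3 m4 m5 m6 q1 q2 q3 q4 q5 q6
  have hN0 : 0 < N := by linarith
  -- replace the constants by `C`
  have hsq : 0 ≤ t ^ 2 := by positivity
  have k1 : Q₁ * hC (z + κ * t) (w + κ * t) ≤
      Q₁ * (hC z w + t * (κ / w - κ / z) + C * t ^ 2) := by
    apply mul_le_mul_of_nonneg_left _ (by linarith)
    refine G1.trans ?_
    have : C₁ * t ^ 2 ≤ C * t ^ 2 := mul_le_mul_of_nonneg_right (by rw [hC']; linarith) hsq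
    linarith
  have k2 : Q₂ * hR (z + κ * t) (w + κ * t) ≤
      Q₂ * (hR z w + t * (κ / (1 - w) - κ / (1 - z)) + C * t ^ 2) := by
    apply mul_le_mul_of_nonneg_left _ (by linarith)
    refine G2.trans ?_
    have : C₂ * t ^ 2 ≤ C * t ^ 2 := mul_le_mul_of_nonneg_right (by rw [hC']; linarith) hsq
    linarith
  have k3 : (M₁ - Q₁ + 1) * hC z (w - t) ≤
      (M₁ - Q₁ + 1) * (hC z w + t * (-1 / w - 0 / z) + C * t ^ 2) := by
    apply mul_le_mul_of_nonneg_left _ (by linarith)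
    refine G3.trans ?_
    have : C₃ * t ^ 2 ≤ C * t ^ 2 := mul_le_mul_of_nonneg_right (by rw [hC']; linarith) hsq
    linarith
  have k4 : (M₂ - Q₂ + 1) * hR z (w - t) ≤
      (M₂ - Q₂ + 1) * (hR z w + t * (-1 / (1 - w) - 0 / (1 - z)) + C * t ^ 2) := by
    apply mul_le_mul_of_nonneg_left _ (by linarith)
    refine G4.trans ?_
    have : C₄ * t ^ 2 ≤ C * t ^ 2 := mul_le_mul_of_nonneg_right (by rw [hC']; linarith) hsq
    linarith
  have k5 : (U₁ - Q₁ + 1) * hC y (y + t) ≤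
      (U₁ - Q₁ + 1) * (0 + t * (1 / y - 0 / y) + C * t ^ 2) := by
    apply mul_le_mul_of_nonneg_left _ (by linarith)
    refine G5.trans ?_
    have : C₅ * t ^ 2 ≤ C * t ^ 2 := mul_le_mul_of_nonneg_right (by rw [hC']; linarith) hsq
    linarith
  have k6 : (U₂ - Q₂ + 1) * hR y (y + t) ≤
      (U₂ - Q₂ + 1) * (0 + t * (1 / (1 - y) - 0 / (1 - y)) + C * t ^ 2) := by
    apply mul_le_mul_of_nonneg_left _ (by linarith)
    refine G6.trans ?_
    have : C₆ * t ^ 2 ≤ C * t ^ 2 := mul_le_mul_of_nonneg_right (by rw [hC']; linarith) hsq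
    linarith
  -- the count of sites
  have cnt : Q₁ + Q₂ + (M₁ - Q₁ + 1) + (M₂ - Q₂ + 1) + (U₁ - Q₁ + 1) + (U₂ - Q₂ + 1) ≤
      A0 * N + 8 := by
    have : A0 * N = a * N + b * N + a * u * N + b * v * N := by rw [hA0]; ring
    linarith only [this, m2, m4, m5, m6, q1, q2]
  have cnt2 := mul_le_mul_of_nonneg_left cnt (mul_nonneg hC0.le hsq)
  have cnt3 : C * t ^ 2 * (A0 * N + 8) ≤ t * ε / 4 * N + C * t ^ 2 * 8 := by
    have h1 : C * A0 * t * (t * N) ≤ ε / 4 * (t * N) :=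
      mul_le_mul_of_nonneg_right b9 (by positivity)
    linarith only [h1]
  -- the linear terms
  have lin1 : κ / w - κ / z = -(1 / w - 1 / y) := by
    have : κ / w - κ / z = -(κ * (1 / z - 1 / w)) := by ring
    rw [this, hκ1]
  have lin2 : κ / (1 - w) - κ / (1 - z) = (a / b) * (1 / w - 1 / y) := by
    have : κ / (1 - w) - κ / (1 - z) = κ * (1 / (1 - w) - 1 / (1 - z)) := by ring
    rw [this, hκ2]
  have lin3 : (a / b) * (1 / w - 1 / y) + 1 / (1 - w) - 1 / (1 - y) = D / b := by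
    have : D = (a / w + b / (1 - w)) - a / y - b / (1 - y) := by rw [hcw]
    rw [this]
    field_simp
    ring
  -- `ρ`
  set ρ := min (Q₂ / (b * N)) 1 with hρ
  have hbN : 0 < b * N := by positivity
  have hρ0 : ρ ∈ Set.Icc (0 : ℝ) 1 := ⟨le_min (by positivity) zero_le_one, min_le_right _ _⟩
  have hyb' := hyb ρ hρ0
  have hρ1 : Q₂ / b * D ≤ N * ρ * D + |D| / b := by
    have h1 : 0 ≤ Q₂ / b - N * ρ := by
      have : ρ ≤ Q₂ / (b * N) := min_le_left _ _
      have h2 : N * ρ ≤ N * (Q₂ / (b * N)) := mul_le_mul_of_nonneg_left this hN0.le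
      have h3 : N * (Q₂ / (b * N)) = Q₂ / b := by field_simp
      linarith
    have h2 : Q₂ / b - N * ρ ≤ 1 / b := by
      rcases le_total (Q₂ / (b * N)) 1 with h3 | h3
      · have : ρ = Q₂ / (b * N) := min_eq_left h3
        rw [this]
        have h4 : N * (Q₂ / (b * N)) = Q₂ / b := by field_simp
        rw [h4]
        have : 0 < 1 / b := by positivity
        linarith
      · have : ρ = 1 := min_eq_right h3
        rw [this]
        have h4 : Q₂ / b ≤ (b * N + 1) / b := by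
          apply div_le_div_of_nonneg_right _ hb.le; linarith
        have h5 : (b * N + 1) / b = N + 1 / b := by field_simp
        linarith
    have h3 : (Q₂ / b - N * ρ) * D ≤ 1 / b * |D| := by
      calc (Q₂ / b - N * ρ) * D ≤ (Q₂ / b - N * ρ) * |D| :=
            mul_le_mul_of_nonneg_left (le_abs_self D) h1
        _ ≤ 1 / b * |D| := mul_le_mul_of_nonneg_right h2 (abs_nonneg D)
    have h4 : 1 / b * |D| = |D| / b := by ring
    linarith only [h3, h4]
  -- the bracket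
  have br : Q₁ * (-(1 / w - 1 / y)) + Q₂ * ((a / b) * (1 / w - 1 / y)) -
      (M₁ - Q₁ + 1) * (1 / w) - (M₂ - Q₂ + 1) * (1 / (1 - w)) +
      (U₁ - Q₁ + 1) * (1 / y) + (U₂ - Q₂ + 1) * (1 / (1 - y)) ≤
      N * (h0 + ε / 2 - l) + (|D| / b + 2 / y + 2 / (1 - y)) := by
    have i1 : 0 < 1 / w := by positivity
    have i2 : 0 < 1 / (1 - w) := by
      have : 0 < 1 - w := by linarith
      positivity
    have i3 : 0 < 1 / y := by positivity
    have i4 : 0 < 1 / (1 - y) := by positivity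
    have j1 : a * N * (1 / w) ≤ M₁ * (1 / w) := mul_le_mul_of_nonneg_right m1 i1.le
    have j2 : b * N * (1 / (1 - w)) ≤ M₂ * (1 / (1 - w)) := mul_le_mul_of_nonneg_right m3 i2.le
    have j3 : U₁ * (1 / y) ≤ (a * u * N + 1) * (1 / y) := mul_le_mul_of_nonneg_right m5 i3.le
    have j4 : U₂ * (1 / (1 - y)) ≤ (b * v * N + 1) * (1 / (1 - y)) :=
      mul_le_mul_of_nonneg_right m6 i4.le
    have j5 : N * l = a * N * (1 / w) + b * N * (1 / (1 - w)) := by rw [← hcw]; ring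
    have j6 : Q₂ * ((a / b) * (1 / w - 1 / y)) + Q₂ * (1 / (1 - w)) - Q₂ * (1 / (1 - y)) =
        Q₂ / b * D := by
      have : Q₂ / b * D = Q₂ * (D / b) := by ring
      rw [this, ← lin3]; ring
    have j7 : N * (ρ * l + (u - ρ) * (a / y) + (v - ρ) * (b / (1 - y))) ≤ N * (h0 + ε / 2) :=
      mul_le_mul_of_nonneg_left hyb' hN0.le
    have j8 : N * (ρ * l + (u - ρ) * (a / y) + (v - ρ) * (b / (1 - y))) =
        N * ρ * D + a * u * N * (1 / y) + b * v * N * (1 / (1 - y)) := by rw [hD]; ring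
    have j9 : 2 / y = 2 * (1 / y) := by ring
    have j10 : 2 / (1 - y) = 2 * (1 / (1 - y)) := by ring
    rw [j9, j10]
    linarith only [j1, j2, j3, j4, j5, j6, j7, j8, hρ1, i1, i2, i3, i4]
  have br2 := mul_le_mul_of_nonneg_left br ht0.le
  have l1 : (M₁ + 1) * hC z w ≤ (a * N + 2) * hC z w :=
    mul_le_mul_of_nonneg_right (by linarith) hCn
  have l2 : (M₂ + 1) * hR z w ≤ (b * N + 2) * hR z w :=
    mul_le_mul_of_nonneg_right (by linarith) hRn
  rw [lin1] at k1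
  rw [lin2] at k2
  have tot : Q₁ * (hC z w + t * (-(1 / w - 1 / y)) + C * t ^ 2) +
      Q₂ * (hR z w + t * ((a / b) * (1 / w - 1 / y)) + C * t ^ 2) +
      ((M₁ - Q₁ + 1) * (hC z w + t * (-1 / w - 0 / z) + C * t ^ 2) +
      (M₂ - Q₂ + 1) * (hR z w + t * (-1 / (1 - w) - 0 / (1 - z)) + C * t ^ 2)) +
      ((U₁ - Q₁ + 1) * (0 + t * (1 / y - 0 / y) + C * t ^ 2) +
      (U₂ - Q₂ + 1) * (0 + t * (1 / (1 - y) - 0 / (1 - y)) + C * t ^ 2)) =
      (M₁ + 1) * hC z w + (M₂ + 1) * hR z w +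
      t * (Q₁ * (-(1 / w - 1 / y)) + Q₂ * ((a / b) * (1 / w - 1 / y)) -
      (M₁ - Q₁ + 1) * (1 / w) - (M₂ - Q₂ + 1) * (1 / (1 - w)) +
      (U₁ - Q₁ + 1) * (1 / y) + (U₂ - Q₂ + 1) * (1 / (1 - y))) +
      C * t ^ 2 * (Q₁ + Q₂ + (M₁ - Q₁ + 1) + (M₂ - Q₂ + 1) + (U₁ - Q₁ + 1) + (U₂ - Q₂ + 1)) := by
    ring
  have fin : -(((w - z) - t) * (l * N)) - t * ((h0 + ε) * N) +
      ((a * N + 2) * hC z w + (b * N + 2) * hR z w +
        t * (N * (h0 + ε / 2 - l) + (|D| / b + 2 / y + 2 / (1 - y))) +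
        (t * ε / 4 * N + C * t ^ 2 * 8)) =
      -(N * ((w - z) * l - a * hC z w - b * hR z w + t * ε / 4)) + K := by
    rw [hK]; ring
  linarith only [k1, k2, k3, k4, k5, k6, cnt2, cnt3, br2, l1, l2, tot, fin]

theorem h44_poly {a c : ℝ} (ha : 0 < a) (hc : 0 < c) :
    ∃ A > 0, ∀ N : ℝ, 0 ≤ N → a * N + 1 ≤ A * Real.exp (c * N) := by
  refine ⟨max (a / c) 1, by positivity, fun N hN => ?_⟩
  have h1 : c * N + 1 ≤ Real.exp (c * N) := Real.add_one_le_exp _
  have h2 : a * N ≤ max (a / c) 1 * (c * N) := by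
    have : a * N = a / c * (c * N) := by field_simp
    rw [this]
    exact mul_le_mul_of_nonneg_right (le_max_left _ _) (by positivity)
  have h3 : (1 : ℝ) ≤ max (a / c) 1 := le_max_right _ _
  calc a * N + 1 ≤ max (a / c) 1 * (c * N) + max (a / c) 1 := by linarith
    _ = max (a / c) 1 * (c * N + 1) := by ring
    _ ≤ _ := mul_le_mul_of_nonneg_left h1 (by positivity)

theorem upper_pair (h : IsExpField P X) {a b l u v : ℝ} (ha : 0 < a) (hb : 0 < b)
    (hl : shp a b < l) (hu : 0 < u) (hv : 0 < v) {ε : ℝ} (hε : 0 < ε) :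
    ∃ θ₁ θ₂ c : ℝ, 0 < θ₁ ∧ θ₁ ≤ 1 ∧ 0 < θ₂ ∧ 0 < c ∧ ∀ᶠ N : ℕ in atTop,
      ENNReal.ofReal (Real.exp (-(θ₁ * (l * N)) - θ₂ * ((hh a b l u v + ε) * N))) *
        ∫⁻ ω, ENNReal.ofReal (Real.exp (θ₁ * lp (fun w => X w ω) (0, 0) (pt a b N) +
          θ₂ * lp (fun w => X w ω) (0, 0) (pt (a * u) (b * v) N))) ∂P ≤
      ENNReal.ofReal (Real.exp (-(N * (rate a b l + c)))) := by
  obtain ⟨y, hy, hy1, hyb⟩ := hh_upper ha hb hl hu hv (half_pos hε)
  obtain ⟨hz, hzw, hw, hcz, hcw⟩ := params ha hb hl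
  obtain ⟨t, κ, K, ht0, htw, hzk, hwk, hyt, H⟩ :=
    h44_expo ha hb hu hv hz hzw hw hy hy1 hcz hcw hyb hε
  set z := zl a b l with hzdef
  set w := wl a b l with hwdef
  have hc0 : 0 < t * ε / 32 := by positivity
  obtain ⟨A₁, hA₁, B₁⟩ := h44_poly ha hc0
  obtain ⟨A₂, hA₂, B₂⟩ := h44_poly hb hc0
  refine ⟨w - z - t, t, t * ε / 8, by linarith, by linarith, ht0, by positivity, ?_⟩
  have E1 := h44_eventually_lin (c := t * ε / 16) (by positivity) (K + Real.log (A₁ * A₂))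
  filter_upwards [E1, eventually_gt_atTop 0] with N F1 hN
  have hN1 : (1 : ℝ) ≤ N := by exact_mod_cast hN
  have hNr : (0 : ℝ) < N := by linarith
  set p₁ := pt a b N with hp₁
  set p₂ := pt (a * u) (b * v) N with hp₂
  have P1 := h44_pt_fst (b := b) ha hN
  have P2 := h44_pt_snd (a := a) hb hN
  have P3 := h44_pt_fst (a := a * u) (b := b * v) (by positivity) hN
  have P4 := h44_pt_snd (a := a * u) (b := b * v) (by positivity) hN
  rw [← hp₁] at P1 P2
  rw [← hp₂] at P3 P4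
  -- one term
  have term : ∀ q ∈ Finset.Icc ((0, 0) : ℕ × ℕ) (p₁ ⊓ p₂),
      ENNReal.ofReal (Real.exp (-((w - z - t) * (l * N)) - t * ((hh a b l u v + ε) * N))) *
        (emom P X (w - z - t + t) (0, 0) q * emom P X (w - z - t) q p₁ * emom P X t q p₂) ≤
      ENNReal.ofReal (Real.exp (-(N * (rate a b l + t * ε / 4)) + K)) := by
    intro q hq
    rw [Finset.mem_Icc] at hq
    have hq1 : q ≤ p₁ := hq.2.trans inf_le_left
    have hq2 : q ≤ p₂ := hq.2.trans inf_le_right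
    have f1 := mgf_upper h hzk (by linarith : z + κ * t ≤ w + κ * t) hwk (0, 0) q.1 q.2
    have f2 := mgf_upper h hz (by linarith : z ≤ w - t) (by linarith) q (p₁.1 - q.1) (p₁.2 - q.2)
    have f3 := mgf_upper h hy (by linarith : y ≤ y + t) hyt q (p₂.1 - q.1) (p₂.2 - q.2)
    have e1 : ((0, 0) : ℕ × ℕ).1 + q.1 = q.1 := by simp
    have e1' : ((0, 0) : ℕ × ℕ).2 + q.2 = q.2 := by simp
    have e2 : (q.1 + (p₁.1 - q.1), q.2 + (p₁.2 - q.2)) = p₁ := by
      ext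
      · simp only; have := hq1.1; omega
      · simp only; have := hq1.2; omega
    have e3 : (q.1 + (p₂.1 - q.1), q.2 + (p₂.2 - q.2)) = p₂ := by
      ext
      · simp only; have := hq2.1; omega
      · simp only; have := hq2.2; omega
    rw [e1, e1'] at f1
    rw [e2] at f2
    rw [e3] at f3
    have g1 : w + κ * t - (z + κ * t) = w - z - t + t := by ring
    have g2 : w - t - z = w - z - t := by ring
    have g3 : y + t - y = t := by ring
    rw [g1] at f1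
    rw [g2] at f2
    rw [g3] at f3
    rw [Nat.cast_sub hq1.1, Nat.cast_sub hq1.2] at f2
    rw [Nat.cast_sub hq2.1, Nat.cast_sub hq2.2] at f3
    have c1 : ((q.1 : ℕ) : ℝ) ≤ p₁.1 := by exact_mod_cast hq1.1
    have c2 : ((q.2 : ℕ) : ℝ) ≤ p₁.2 := by exact_mod_cast hq1.2
    have c3 : ((q.1 : ℕ) : ℝ) ≤ p₂.1 := by exact_mod_cast hq2.1
    have c4 : ((q.2 : ℕ) : ℝ) ≤ p₂.2 := by exact_mod_cast hq2.2
    have c5 : (0 : ℝ) ≤ q.1 := Nat.cast_nonneg _
    have c6 : (0 : ℝ) ≤ q.2 := Nat.cast_nonneg _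
    have HH := H N (p₁.1 + 1) (p₁.2 + 1) (p₂.1 + 1) (p₂.2 + 1) (q.1 + 1) (q.2 + 1) hN1
      P1.1 P1.2 P2.1 P2.2 P3.2 P4.2 (by linarith) (by linarith) (by linarith) (by linarith)
      (by linarith) (by linarith)
    refine (mul_le_mul_right (mul_le_mul' (mul_le_mul' f1 f2) f3) _).trans ?_
    rw [← ENNReal.ofReal_mul (Real.exp_pos _).le, ← ENNReal.ofReal_mul (by positivity),
      ← ENNReal.ofReal_mul (Real.exp_pos _).le, ← Real.exp_add, ← Real.exp_add, ← Real.exp_add]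
    apply ENNReal.ofReal_le_ofReal
    apply Real.exp_le_exp.2
    refine le_trans (le_of_eq ?_) (HH.trans (le_of_eq ?_))
    · ring
    · unfold rate; ring
  have tp := two_path h (by linarith : 0 ≤ w - z - t) ht0.le p₁ p₂
  refine (mul_le_mul_right tp _).trans ?_
  rw [Finset.mul_sum]
  refine (Finset.sum_le_sum term).trans ?_
  rw [Finset.sum_const, nsmul_eq_mul]
  have hcard : ((Finset.Icc ((0, 0) : ℕ × ℕ) (p₁ ⊓ p₂)).card : ℝ) ≤
      (a * N + 1) * (b * N + 1) := by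
    have h1 : (Finset.Icc ((0, 0) : ℕ × ℕ) (p₁ ⊓ p₂)).card ≤ (p₁.1 + 1) * (p₁.2 + 1) := by
      refine (Finset.card_le_card (Finset.Icc_subset_Icc_right inf_le_left)).trans ?_
      have : Finset.Icc ((0, 0) : ℕ × ℕ) p₁ = Finset.Icc 0 p₁.1 ×ˢ Finset.Icc 0 p₁.2 := by
        ext x
        simp [Finset.mem_Icc, Prod.le_def]
      rw [this, Finset.card_product]
      simp
    calc ((Finset.Icc ((0, 0) : ℕ × ℕ) (p₁ ⊓ p₂)).card : ℝ) ≤
          (((p₁.1 + 1) * (p₁.2 + 1) : ℕ) : ℝ) := by exact_mod_cast h1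
      _ = ((p₁.1 : ℝ) + 1) * ((p₁.2 : ℝ) + 1) := by push_cast; ring
      _ ≤ _ := mul_le_mul P1.2 P2.2 (by positivity) (by positivity)
  have hcard2 : ((Finset.Icc ((0, 0) : ℕ × ℕ) (p₁ ⊓ p₂)).card : ℝ≥0∞) ≤
      ENNReal.ofReal (Real.exp (t * ε / 16 * N + Real.log (A₁ * A₂))) := by
    rw [← ENNReal.ofReal_natCast]
    apply ENNReal.ofReal_le_ofReal
    refine hcard.trans ?_
    rw [Real.exp_add, Real.exp_log (by positivity)]
    calc (a * N + 1) * (b * N + 1) ≤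
        (A₁ * Real.exp (t * ε / 32 * N)) * (A₂ * Real.exp (t * ε / 32 * N)) :=
          mul_le_mul (B₁ N hNr.le) (B₂ N hNr.le) (by positivity) (by positivity)
      _ = Real.exp (t * ε / 16 * N) * (A₁ * A₂) := by
          have : t * ε / 16 * N = t * ε / 32 * N + t * ε / 32 * N := by ring
          rw [this, Real.exp_add]; ring
  refine (mul_le_mul_left hcard2 _).trans ?_
  rw [← ENNReal.ofReal_mul (Real.exp_pos _).le, ← Real.exp_add]
  apply ENNReal.ofReal_le_ofReal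
  apply Real.exp_le_exp.2
  nlinarith

end Helper97.LPP
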